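import Pool.Agent.H87.CKLogic.Main

namespace Pool.Agent.Results.MP_1f55c7_lc.FiniteAxiomatisability

open Pool.Agent.H87.CKLogic

/-- The diamond-free fragment of `L₁` is finitely axiomatisable, that of `L₂` is not. -/
theorem result : FragmentFinAx L1 ∧ ¬ FragmentFinAx L2 :=
  ⟨L1_finAx, L2_not_finAx⟩

end Pool.Agent.Results.MP_1f55c7_lc.FiniteAxiomatisability
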