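import Pool.Agent.H87.CKLogic.Main

namespace Pool.Agent.Results.MP_1f55c7_lc.FragmentsDiffer

open Pool.Agent.H87.CKLogic Pool.Agent.H87.CKLogic.Form

/-- The diamond-free formula
`□(p ∨ q) → (((□(p → (a ∨ b)) → (¬□¬a ∨ ¬□¬b)) → □q) → □q)`,
where `p, q, a, b` are the variables `0, 1, 2, 3`. -/
def Witness : Form :=
  imp (box (or (var 0) (var 1)))
    (imp
      (imp
        (imp (box (imp (var 0) (or (var 2) (var 3))))
          (or (neg (box (neg (var 2)))) (neg (box (neg (var 3))))))
        (box (var 1)))
      (box (var 1)))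

theorem witness_mem_L2 : Witness ∈ L2 := by
  have hL := isLogic_L2
  have hK : KDia ∈ L2 := L1_subset_L2 KDia_mem_L1
  have hN : NDia ∈ L2 := L1_subset_L2 NDia_mem_L1
  apply Der.intro1 hL
  apply Der.ded hL
  apply Der.wcd hL (L1_subset_L2 WCD_mem_L1) (φ := var 0) (Der.hyp (by simp))
  apply Der.ded hL
  apply Der.mp (φ := imp (box (imp (var 0) (or (var 2) (var 3))))
    (or (neg (box (neg (var 2)))) (neg (box (neg (var 3)))))) (Der.hyp (by simp))
  apply Der.ded hL
  apply Der.orE hL (φ := dia (var 2)) (ψ := dia (var 3))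
  · apply Der.cdia hL CDia_mem_L2
    exact Der.kdia hL hK (φ := var 0) (Der.hyp (by simp)) (Der.hyp (by simp))
  · exact Der.orI1 hL (Der.diaToDual hL hK hN (Der.hyp (by simp)))
  · exact Der.orI2 hL (Der.diaToDual hL hK hN (Der.hyp (by simp)))

theorem witness_diaFree : Witness.DiaFree := by
  simp [Witness, DiaFree, neg]

theorem theta_two_valid_of_witness {W : Type} [Preorder W] {R : W → W → Prop}
    (h : Witness ∈ Valid R) : Theta 2 ∈ Valid R := by
  intro V hV w
  have := h V hV w
  simp only [Witness, Theta, Mform, List.range_succ, List.range_zero,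
    List.map_cons, List.map_nil, List.nil_append, List.cons_append, bigOr, Force, or_false,
    Nat.zero_add] at this ⊢
  exact this

theorem witness_notMem_L1 : Witness ∉ L1 := by
  intro h
  rw [L1_fragment _ witness_diaFree] at h
  apply Pt.theta_not_valid (k := 2)
  apply theta_two_valid_of_witness
  exact oplus_subset valid_isLogic CKBox_subset_valid (by rintro _ rfl; exact Pt.chi_valid) h

/-- The diamond-free fragments of `L₁` and `L₂` do not coincide: `Witness` is a diamond-free
theorem of `L₂` that is not a theorem of `L₁`. -/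
theorem result : Witness.DiaFree ∧ Witness ∈ L2 ∧ Witness ∉ L1 :=
  ⟨witness_diaFree, witness_mem_L2, witness_notMem_L1⟩

end Pool.Agent.Results.MP_1f55c7_lc.FragmentsDiffer
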